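import Pool.Agent.Helper78.JT.Goals2
import Pool.Agent.Helper3.DT.PTL
import Pool.Agent.Helper89.AO.BRG

/-!
# GEJ: the general theorem
-/

namespace Pool.Agent.Helper26.JT

open Pool.Agent.Helper81.CC Pool.Agent.Helper51.ZP Pool.Agent.Helper78.DT Pool.Agent.Helper78.AO
  Pool.Agent.Helper78.JT
open scoped Classical

/-- **GEJ.** The general theorem. -/
theorem gej (hApj : ApjStmt) (hPtj : PtjStmt) : GejStmt := by
  intro α _ F m s c1 e hF hm hs hms c0
  obtain ⟨a, β, C, L0, h⟩ := hApj c1 c0 e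
  obtain ⟨f0, hf0, h0⟩ := Pool.Agent.Helper89.AO.brg α F m s c0 (2 ^ L0) hF hm hs
  have hlg : PolyTime (fun x => lg (s x)) :=
    (Pool.Agent.Helper3.DT.ptl α _ _ _ hs (PolyTime.const 0) (PolyTime.const 0)).1
  refine ⟨fun x => if L0 ≤ lg (s x) then apj (F x) (m x) (c0 + c1) a β e C c0 (s x) else f0 x,
    PolyTime.itep (by fun_prop) (hPtj α F m s (c0 + c1) a β e C c0 hF hm hs) hf0,
    fun x r hL hr => ?_⟩
  by_cases hl : L0 ≤ lg (s x)
  · simp only [if_pos hl]
    exact h (m x) (s x) r (F x) (hms x) hL hr hl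
  · simp only [if_neg hl]
    refine h0 x ?_
    have h1 : m x ≤ s x := hms x
    have h2 : s x < 2 ^ (Nat.log 2 (s x) + 1) := Nat.lt_pow_succ_log_self (by norm_num) _
    have h3 : 2 ^ (Nat.log 2 (s x) + 1) ≤ 2 ^ L0 := by
      refine Nat.pow_le_pow_right (by norm_num) ?_
      unfold lg at hl
      omega
    omega

end Pool.Agent.Helper26.JT
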